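import Mathlib

/-!
# An operator inequality of Furuta type

For strictly positive `P`, `X` in a C*-algebra and `0 ≤ r ≤ 1`: if `(X P X)^r ≤ P` then
`X^(2r) ≤ P^(1-r)`. For `r ≤ 1/2` this follows from the Loewner-Heinz inequality alone; for
`1/2 < r < 1` one takes the least `t` with `X^(2r) ≤ t P^(1-r)`, and Furuta's inequality gives
`X^(2r) ≤ t^r P^(1-r)`, so that `t ≤ t^r`, i.e. `t ≤ 1`.
-/

set_option autoImplicit false

open Set CFC

namespace Pool.Agent.X872.DetIneq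

variable {A : Type*} [CStarAlgebra A] [PartialOrder A] [StarOrderedRing A]

theorem rr {a : A} (ha : IsStrictlyPositive a) (x y : ℝ) : (a ^ x) ^ y = a ^ (x * y) := by
  by_cases hx : x = 0
  · rw [hx, rpow_zero a ha.nonneg, one_rpow, zero_mul, rpow_zero a ha.nonneg]
  · exact rpow_rpow a x y hx ha

theorem rstar (a : A) (x : ℝ) : star (a ^ x) = a ^ x :=
  (rpow_nonneg (a := a) (y := x)).isSelfAdjoint.star_eq

theorem rsp {a : A} (ha : IsStrictlyPositive a) (x : ℝ) : IsStrictlyPositive (a ^ x) :=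
  IsStrictlyPositive.rpow a x ha

theorem radd {a : A} (ha : IsStrictlyPositive a) (x y : ℝ) : a ^ x * a ^ y = a ^ (x + y) :=
  (rpow_add ha.isUnit).symm

theorem conj_le {a b c : A} (h : a ≤ b) (hc : star c = c) : c * a * c ≤ c * b * c := by
  have := star_left_conjugate_le_conjugate h c
  rwa [hc] at this

theorem conj_sp {a b : A} (ha : IsStrictlyPositive a) (hb : IsStrictlyPositive b) :
    IsStrictlyPositive (b * a * b) := by
  refine ⟨?_, (hb.isUnit.mul ha.isUnit).mul hb.isUnit⟩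
  have := star_left_conjugate_nonneg ha.nonneg b
  rwa [hb.isSelfAdjoint.star_eq] at this

theorem inv_anti {a b : A} (ha : IsStrictlyPositive a) (hb : IsStrictlyPositive b) (h : a ≤ b)
    {x : ℝ} (hx : x ∈ Icc (0 : ℝ) 1) : b ^ (-x) ≤ a ^ (-x) := by
  have h1 : b ^ (-1 : ℝ) ≤ a ^ (-1 : ℝ) := CStarAlgebra.rpow_neg_one_le_rpow_neg_one h ha
  have h2 := rpow_le_rpow hx h1
  rwa [rr hb, rr ha, neg_one_mul] at h2

/-- conjugation by a unitary commutes with powers -/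
theorem conj_rpow {u : A} (hu : u ∈ unitary A) {a : A} (ha : IsStrictlyPositive a) (x : ℝ) :
    (u * a * star u) ^ x = u * a ^ x * star u := by
  have hc : Continuous (Unitary.conjStarAlgAut ℂ A ⟨u, hu⟩) := by
    have : (Unitary.conjStarAlgAut ℂ A ⟨u, hu⟩ : A → A) = fun y => u * y * star u := by
      funext y
      rw [Unitary.conjStarAlgAut_apply]
    rw [this]
    fun_prop
  have hsp : ContinuousOn (fun z : NNReal => z ^ x) (spectrum NNReal a) := by
    refine NNReal.continuousOn_rpow_const (Or.inl ?_)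
    exact spectrum.zero_notMem _ ha.isUnit
  have hnn : 0 ≤ Unitary.conjStarAlgAut ℂ A ⟨u, hu⟩ a := by
    rw [Unitary.conjStarAlgAut_apply]
    exact star_right_conjugate_nonneg ha.nonneg u
  have h := StarAlgHomClass.map_cfc (S := ℂ) (R := NNReal) (Unitary.conjStarAlgAut ℂ A ⟨u, hu⟩)
    (fun z : NNReal => z ^ x) a hsp hc ha.nonneg hnn
  rw [Unitary.conjStarAlgAut_apply, Unitary.conjStarAlgAut_apply] at h
  exact h.symm

/-- `(g* g)^θ = g* (g g*)^(θ-1) g` -/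
theorem polar {g : A} (hg : IsUnit g) (θ : ℝ) :
    (star g * g) ^ θ = star g * (g * star g) ^ (θ - 1) * g := by
  obtain ⟨h, hh⟩ : ∃ h, h = star g * g := ⟨_, rfl⟩
  have hsp : IsStrictlyPositive h := by
    rw [hh]
    exact ⟨star_mul_self_nonneg g, hg.star.mul hg⟩
  obtain ⟨u, hu⟩ : ∃ u, u = g * h ^ (-(1 / 2) : ℝ) := ⟨_, rfl⟩
  have hus : star u = h ^ (-(1 / 2) : ℝ) * star g := by rw [hu, star_mul, rstar]
  have h1 : star u * u = 1 := by
    have e : star u * u = h ^ (-(1 / 2) : ℝ) * h * h ^ (-(1 / 2) : ℝ) := by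
      rw [hus, hu, hh]
      simp only [mul_assoc]
    have e2 : h ^ (-(1 / 2) : ℝ) * h = h ^ (1 / 2 : ℝ) := by
      conv_lhs => rw [show h = h ^ (1 : ℝ) from (rpow_one h hsp.nonneg).symm]
      rw [rpow_one h hsp.nonneg]
      nth_rewrite 2 [show h = h ^ (1 : ℝ) from (rpow_one h hsp.nonneg).symm]
      rw [radd hsp]
      norm_num
    rw [e, e2, radd hsp]
    norm_num
    exact rpow_zero h hsp.nonneg
  have huu : IsUnit u := by
    rw [hu]
    exact hg.mul (rsp hsp _).isUnit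
  have h2 : u * star u = 1 := by
    obtain ⟨v, hv⟩ := huu
    have : star u = (v⁻¹ : Aˣ) := by
      rw [← hv] at h1 ⊢
      exact Units.eq_inv_of_mul_eq_one_right h1
    rw [this, ← hv]
    exact v.mul_inv
  have hun : u ∈ unitary A := by
    rw [Unitary.mem_iff]
    exact ⟨h1, h2⟩
  have hone : h ^ (1 / 2 : ℝ) * h ^ (1 / 2 : ℝ) = h := by
    rw [radd hsp]
    norm_num
    exact rpow_one h hsp.nonneg
  have hg2 : g = u * h ^ (1 / 2 : ℝ) := by
    rw [hu, mul_assoc, radd hsp]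
    norm_num
    rw [rpow_zero h hsp.nonneg, mul_one]
  have hgs : star g = h ^ (1 / 2 : ℝ) * star u := by
    conv_lhs => rw [hg2]
    rw [star_mul, rstar]
  have hk : g * star g = u * h * star u := by
    rw [hgs]
    nth_rewrite 1 [hg2]
    calc u * h ^ (1 / 2 : ℝ) * (h ^ (1 / 2 : ℝ) * star u)
        = u * (h ^ (1 / 2 : ℝ) * h ^ (1 / 2 : ℝ)) * star u := by simp only [mul_assoc]
      _ = u * h * star u := by rw [hone]
  rw [hk, conj_rpow hun hsp, ← hh]
  have e3 : star g * u = h ^ (1 / 2 : ℝ) := by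
    rw [hgs, mul_assoc, h1, mul_one]
  have e4 : star u * g = h ^ (1 / 2 : ℝ) := by
    nth_rewrite 1 [hg2]
    rw [← mul_assoc, h1, one_mul]
  calc h ^ θ = h ^ (1 / 2 : ℝ) * h ^ (θ - 1) * h ^ (1 / 2 : ℝ) := by
        rw [radd hsp, radd hsp]
        congr 1
        ring
    _ = star g * u * h ^ (θ - 1) * (star u * g) := by rw [e3, e4]
    _ = star g * (u * h ^ (θ - 1) * star u) * g := by simp only [mul_assoc]

/-- Furuta's inequality, first step. -/
theorem furuta1 {a b : A} (ha : IsStrictlyPositive a) (hb : IsStrictlyPositive b) (h : b ≤ a)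
    {p ρ : ℝ} (hp : 1 ≤ p) (hρ : ρ ∈ Icc (0 : ℝ) 1) :
    b ^ (1 + ρ) ≤ (b ^ (ρ / 2) * a ^ p * b ^ (ρ / 2)) ^ ((1 + ρ) / (p + ρ)) := by
  have hpρ : 0 < p + ρ := by linarith [hρ.1]
  obtain ⟨g, hg⟩ : ∃ g, g = a ^ (p / 2) * b ^ (ρ / 2) := ⟨_, rfl⟩
  have hgu : IsUnit g := by
    rw [hg]
    exact (rsp ha _).isUnit.mul (rsp hb _).isUnit
  have hgs : star g = b ^ (ρ / 2) * a ^ (p / 2) := by rw [hg, star_mul, rstar, rstar]
  have e1 : star g * g = b ^ (ρ / 2) * a ^ p * b ^ (ρ / 2) := by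
    rw [hgs, hg]
    calc b ^ (ρ / 2) * a ^ (p / 2) * (a ^ (p / 2) * b ^ (ρ / 2))
        = b ^ (ρ / 2) * (a ^ (p / 2) * a ^ (p / 2)) * b ^ (ρ / 2) := by simp only [mul_assoc]
      _ = _ := by rw [radd ha]; ring_nf
  have e2 : g * star g = a ^ (p / 2) * b ^ ρ * a ^ (p / 2) := by
    rw [hgs, hg]
    calc a ^ (p / 2) * b ^ (ρ / 2) * (b ^ (ρ / 2) * a ^ (p / 2))
        = a ^ (p / 2) * (b ^ (ρ / 2) * b ^ (ρ / 2)) * a ^ (p / 2) := by simp only [mul_assoc]
      _ = _ := by rw [radd hb]; ring_nf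
  rw [← e1, polar hgu, e2]
  -- the inverse of `g g*`
  obtain ⟨k, hk⟩ : ∃ k, k = a ^ (p / 2) * b ^ ρ * a ^ (p / 2) := ⟨_, rfl⟩
  have hksp : IsStrictlyPositive k := by
    rw [hk]
    exact conj_sp (rsp hb _) (rsp ha _)
  have hkinv : k ^ (-1 : ℝ) = a ^ (-(p / 2)) * b ^ (-ρ) * a ^ (-(p / 2)) := by
    have h1 : k * (a ^ (-(p / 2)) * b ^ (-ρ) * a ^ (-(p / 2))) = 1 := by
      rw [hk]
      calc a ^ (p / 2) * b ^ ρ * a ^ (p / 2) * (a ^ (-(p / 2)) * b ^ (-ρ) * a ^ (-(p / 2)))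
          = a ^ (p / 2) * (b ^ ρ * (a ^ (p / 2) * a ^ (-(p / 2))) * b ^ (-ρ)) * a ^ (-(p / 2)) := by
            simp only [mul_assoc]
        _ = 1 := by
            rw [radd ha, add_neg_cancel, rpow_zero a ha.nonneg, mul_one, radd hb, add_neg_cancel,
              rpow_zero b hb.nonneg, mul_one, radd ha, add_neg_cancel, rpow_zero a ha.nonneg]
    have h2 : k ^ (-1 : ℝ) * k = 1 := by
      have := radd hksp (-1) 1
      rw [rpow_one k hksp.nonneg] at this
      rw [this]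
      norm_num
      exact rpow_zero k hksp.nonneg
    calc k ^ (-1 : ℝ) = k ^ (-1 : ℝ) * (k * (a ^ (-(p / 2)) * b ^ (-ρ) * a ^ (-(p / 2)))) := by
          rw [h1, mul_one]
      _ = _ := by rw [← mul_assoc, h2, one_mul]
  have h3 : a ^ (-(p + ρ)) ≤ k ^ (-1 : ℝ) := by
    rw [hkinv]
    have h4 := inv_anti hb ha h hρ
    have h5 := conj_le h4 (rstar a (-(p / 2)))
    refine le_trans (le_of_eq ?_) h5
    rw [radd ha, radd ha]
    congr 1
    ring
  have hexp : (p - 1) / (p + ρ) ∈ Icc (0 : ℝ) 1 := by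
    refine ⟨div_nonneg (by linarith) hpρ.le, ?_⟩
    rw [div_le_one hpρ]
    linarith [hρ.1]
  have h6 : a ^ (-(p - 1)) ≤ k ^ ((1 + ρ) / (p + ρ) - 1) := by
    have h7 := rpow_le_rpow hexp h3
    rw [rr ha, rr hksp] at h7
    have e3 : -(p + ρ) * ((p - 1) / (p + ρ)) = -(p - 1) := by field_simp
    have e4 : -1 * ((p - 1) / (p + ρ)) = (1 + ρ) / (p + ρ) - 1 := by
      field_simp
      ring
    rwa [e3, e4] at h7
  rw [← hk]
  have h8 := star_left_conjugate_le_conjugate h6 g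
  refine le_trans ?_ h8
  have e5 : star g * a ^ (-(p - 1)) * g = b ^ (ρ / 2) * a * b ^ (ρ / 2) := by
    rw [hgs, hg]
    calc b ^ (ρ / 2) * a ^ (p / 2) * a ^ (-(p - 1)) * (a ^ (p / 2) * b ^ (ρ / 2))
        = b ^ (ρ / 2) * (a ^ (p / 2) * a ^ (-(p - 1)) * a ^ (p / 2)) * b ^ (ρ / 2) := by
          simp only [mul_assoc]
      _ = _ := by
          rw [radd ha, radd ha]
          have : p / 2 + -(p - 1) + p / 2 = 1 := by ring
          rw [this, rpow_one a ha.nonneg]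
  rw [e5]
  have h9 := conj_le h (rstar b (ρ / 2))
  refine le_trans (le_of_eq ?_) h9
  conv_rhs => rw [show b ^ (ρ / 2) * b = b ^ (ρ / 2 + 1) by
    rw [← radd hb, rpow_one b hb.nonneg]]
  rw [radd hb]
  congr 1
  ring

/-- Furuta's inequality, second step. -/
theorem furuta2 {a b : A} (ha : IsStrictlyPositive a) (hb : IsStrictlyPositive b) (h : b ≤ a)
    {p σ : ℝ} (hp : 1 ≤ p) (hσ : σ ∈ Icc (0 : ℝ) 1) :
    b ^ (2 + 2 * σ) ≤
      (b ^ ((1 + 2 * σ) / 2) * a ^ p * b ^ ((1 + 2 * σ) / 2)) ^ ((2 + 2 * σ) / (p + 1 + 2 * σ)) := by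
  have h1 := furuta1 ha hb h hp (ρ := 1) ⟨zero_le_one, le_rfl⟩
  obtain ⟨c, hc⟩ : ∃ c, c = b ^ ((1 : ℝ) / 2) * a ^ p * b ^ ((1 : ℝ) / 2) := ⟨_, rfl⟩
  have hcsp : IsStrictlyPositive c := by
    rw [hc]
    exact conj_sp (rsp ha _) (rsp hb _)
  rw [← hc] at h1
  have hp1 : 0 < p + 1 := by linarith
  have h2 := furuta1 (rsp hcsp _) (rsp hb _) h1 (p := (p + 1) / 2) (ρ := σ) (by linarith) hσ
  have e1 : (c ^ ((1 + 1) / (p + 1))) ^ ((p + 1) / 2) = c := by
    rw [rr hcsp]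
    have : (1 + 1) / (p + 1) * ((p + 1) / 2) = 1 := by field_simp; norm_num
    rw [this, rpow_one c hcsp.nonneg]
  have e2 : (b ^ ((1 : ℝ) + 1)) ^ (σ / 2) = b ^ σ := by
    rw [rr hb]
    congr 1
    ring
  rw [e1, e2, rr hb, hc] at h2
  have e3 : (1 + 1) * (1 + σ) = 2 + 2 * σ := by ring
  have e4 : (1 + σ) / ((p + 1) / 2 + σ) = (2 + 2 * σ) / (p + 1 + 2 * σ) := by
    have : (p + 1) / 2 + σ ≠ 0 := by
      have := hσ.1
      positivity
    have : p + 1 + 2 * σ ≠ 0 := by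
      have := hσ.1
      positivity
    field_simp
  have e5 : b ^ σ * (b ^ ((1 : ℝ) / 2) * a ^ p * b ^ ((1 : ℝ) / 2)) * b ^ σ =
      b ^ ((1 + 2 * σ) / 2) * a ^ p * b ^ ((1 + 2 * σ) / 2) := by
    calc b ^ σ * (b ^ ((1 : ℝ) / 2) * a ^ p * b ^ ((1 : ℝ) / 2)) * b ^ σ
        = (b ^ σ * b ^ ((1 : ℝ) / 2)) * a ^ p * (b ^ ((1 : ℝ) / 2) * b ^ σ) := by
          simp only [mul_assoc]
      _ = _ := by
          rw [radd hb, radd hb]
          have h1 : σ + 1 / 2 = (1 + 2 * σ) / 2 := by ring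
          have h2 : 1 / 2 + σ = (1 + 2 * σ) / 2 := by ring
          rw [h1, h2]
  rwa [e3, e4, e5] at h2

theorem smul_rpow' {a : A} (ha : IsStrictlyPositive a) {c : ℝ} (hc : 0 < c) (x : ℝ) :
    (c • a) ^ x = (c ^ x) • a ^ x := by
  obtain ⟨d, hd⟩ : ∃ d : NNReal, d = ⟨c, hc.le⟩ := ⟨_, rfl⟩
  have hdc : (d : ℝ) = c := by rw [hd]; rfl
  have hd0 : d ≠ 0 := by
    intro h
    rw [h] at hdc
    exact hc.ne' (by simpa using hdc.symm)
  have e1 : c • a = d • a := by rw [← hdc]; rfl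
  have hsp : (0 : NNReal) ∉ spectrum NNReal a := spectrum.zero_notMem _ ha.isUnit
  have hcont : ContinuousOn (fun z : NNReal => z ^ x) (spectrum NNReal a) :=
    NNReal.continuousOn_rpow_const (Or.inl hsp)
  have hcont2 : ContinuousOn (fun z : NNReal => z ^ x) ((d • ·) '' (spectrum NNReal a)) := by
    refine NNReal.continuousOn_rpow_const (Or.inl ?_)
    rintro ⟨z, hz, hz0⟩
    simp only [smul_eq_mul, mul_eq_zero] at hz0
    rcases hz0 with h | h
    · exact hd0 h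
    · exact hsp (h ▸ hz)
  have e2 : (d • a) ^ x = (d ^ x) • a ^ x := by
    rw [rpow_def, rpow_def, ← cfc_comp_smul d (fun z : NNReal => z ^ x) a hcont2 ha.nonneg,
      ← cfc_smul (d ^ x) (fun z : NNReal => z ^ x) a hcont]
    refine cfc_congr fun z _ => ?_
    simp [NNReal.mul_rpow]
  rw [e1, e2, ← hdc]
  rfl

theorem smul_le_smul' {a b : A} (h : a ≤ b) {c : ℝ} (hc : 0 ≤ c) : c • a ≤ c • b :=
  smul_le_smul_of_nonneg_left h hc

/-- if `a ≤ c • b` then `a^x ≤ c^x • b^x` -/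
theorem pow_le {a b : A} (hb : IsStrictlyPositive b) {c : ℝ} (hc : 0 < c) (h : a ≤ c • b) {x : ℝ}
    (hx : x ∈ Icc (0 : ℝ) 1) : a ^ x ≤ c ^ x • b ^ x := by
  rw [← smul_rpow' hb hc]
  exact rpow_le_rpow hx h

/-- The bootstrap step. -/
theorem boot {P X : A} (hP : IsStrictlyPositive P) (hX : IsStrictlyPositive X) {s : ℝ}
    (hs0 : 0 < s) (hs1 : s ≤ 1 / 2) (H : (X * P * X) ^ (1 - s) ≤ P) {t : ℝ} (ht : 0 < t)
    (h : X ^ (2 - 2 * s) ≤ t • P ^ s) : X ^ (2 - 2 * s) ≤ t ^ (1 - s) • P ^ s := by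
  obtain ⟨C, hC⟩ : ∃ C, C = X * P * X := ⟨_, rfl⟩
  have hCsp : IsStrictlyPositive C := by
    rw [hC]
    exact conj_sp hP hX
  have h1s : 0 < 1 - s := by linarith
  have h2s : 0 < 2 - s := by linarith
  -- Furuta with `a = P^s`, `b = t⁻¹ X^(2-2s)`
  have hb : IsStrictlyPositive (t⁻¹ • X ^ (2 - 2 * s)) :=
    IsStrictlyPositive.smul (inv_pos.2 ht) (rsp hX _)
  have hba : t⁻¹ • X ^ (2 - 2 * s) ≤ P ^ s := by
    have := smul_le_smul' h (inv_pos.2 ht).le
    rwa [smul_smul, inv_mul_cancel₀ ht.ne', one_smul] at this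
  have hσ : s / (2 * (1 - s)) ∈ Icc (0 : ℝ) 1 := by
    refine ⟨by positivity, ?_⟩
    rw [div_le_one (by positivity)]
    linarith
  have hF := furuta2 (rsp hP s) hb hba (p := 1 / s) (σ := s / (2 * (1 - s)))
    (by rw [le_div_iff₀ hs0]; linarith) hσ
  have e1 : 1 + 2 * (s / (2 * (1 - s))) = 1 / (1 - s) := by field_simp; ring
  have e2 : 2 + 2 * (s / (2 * (1 - s))) = (2 - s) / (1 - s) := by field_simp; ring
  have e3 : 1 / s + 1 + 2 * (s / (2 * (1 - s))) = 1 / (s * (1 - s)) := by field_simp; ring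
  have e4 : (2 - s) / (1 - s) / (1 / (s * (1 - s))) = s * (2 - s) := by field_simp
  have e5 : (P ^ s) ^ (1 / s) = P := by
    rw [rr hP]
    have : s * (1 / s) = 1 := by field_simp
    rw [this, rpow_one P hP.nonneg]
  have e6 : (t⁻¹ • X ^ (2 - 2 * s)) ^ (1 / (1 - s) / 2) = t ^ (-(1 / (1 - s) / 2)) • X := by
    rw [smul_rpow' (rsp hX _) (inv_pos.2 ht), rr hX, Real.inv_rpow ht.le, Real.rpow_neg ht.le]
    congr 1
    have : (2 - 2 * s) * (1 / (1 - s) / 2) = 1 := by field_simp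
    rw [this, rpow_one X hX.nonneg]
  have e7 : (t⁻¹ • X ^ (2 - 2 * s)) ^ ((2 - s) / (1 - s)) =
      t ^ (-((2 - s) / (1 - s))) • X ^ (2 * (2 - s)) := by
    rw [smul_rpow' (rsp hX _) (inv_pos.2 ht), rr hX, Real.inv_rpow ht.le, Real.rpow_neg ht.le]
    congr 2
    field_simp
  rw [e3, e2, e1, e4, e5, e6, e7] at hF
  have e8 : t ^ (-(1 / (1 - s) / 2)) • X * P * t ^ (-(1 / (1 - s) / 2)) • X =
      t ^ (-(1 / (1 - s))) • C := by
    rw [hC, smul_mul_assoc, smul_mul_assoc, mul_smul_comm, smul_smul, ← Real.rpow_add ht]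
    congr 1
    ring_nf
  rw [e8, smul_rpow' hCsp (Real.rpow_pos_of_pos ht _), ← Real.rpow_mul ht.le] at hF
  -- `(★)`
  have hstar : X ^ (2 * (2 - s)) ≤ t ^ (2 - s) • C ^ (s * (2 - s)) := by
    have h5 := smul_le_smul' hF (Real.rpow_pos_of_pos ht ((2 - s) / (1 - s))).le
    rw [smul_smul, smul_smul, ← Real.rpow_add ht, ← Real.rpow_add ht] at h5
    have e9 : (2 - s) / (1 - s) + -((2 - s) / (1 - s)) = 0 := by ring
    have e10 : (2 - s) / (1 - s) + -(1 / (1 - s)) * (s * (2 - s)) = 2 - s := by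
      field_simp
      ring
    rwa [e9, e10, Real.rpow_zero, one_smul] at h5
  rw [← hC] at H
  have hCH : IsStrictlyPositive (C ^ (1 - s)) := rsp hCsp _
  rcases le_total (s * (2 - s)) (1 - s) with hu | hu
  · -- case A
    have hx1 : s * (2 - s) / (1 - s) ∈ Icc (0 : ℝ) 1 :=
      ⟨by positivity, by rw [div_le_one h1s]; exact hu⟩
    have h6 := rpow_le_rpow hx1 H
    rw [rr hCsp] at h6
    have e11 : (1 - s) * (s * (2 - s) / (1 - s)) = s * (2 - s) := by field_simp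
    rw [e11] at h6
    have h7 : X ^ (2 * (2 - s)) ≤ t ^ (2 - s) • P ^ (s * (2 - s) / (1 - s)) :=
      hstar.trans (smul_le_smul' h6 (Real.rpow_pos_of_pos ht _).le)
    have hx2 : (1 - s) / (2 - s) ∈ Icc (0 : ℝ) 1 :=
      ⟨by positivity, by rw [div_le_one h2s]; linarith⟩
    have h8 := pow_le (rsp hP _) (Real.rpow_pos_of_pos ht _) h7 hx2
    rw [rr hX, rr hP, ← Real.rpow_mul ht.le] at h8
    have e12 : 2 * (2 - s) * ((1 - s) / (2 - s)) = 2 - 2 * s := by field_simp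
    have e13 : (2 - s) * ((1 - s) / (2 - s)) = 1 - s := by field_simp
    have e14 : s * (2 - s) / (1 - s) * ((1 - s) / (2 - s)) = s := by field_simp
    rwa [e12, e13, e14] at h8
  · -- case B
    have hu0 : 0 < s * (2 - s) := by positivity
    have hx1 : (1 - s) / (s * (2 - s)) ∈ Icc (0 : ℝ) 1 :=
      ⟨by positivity, by rw [div_le_one hu0]; exact hu⟩
    have h6 := pow_le (rsp hCsp _) (Real.rpow_pos_of_pos ht _) hstar hx1
    rw [rr hX, rr hCsp, ← Real.rpow_mul ht.le] at h6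
    have e11 : 2 * (2 - s) * ((1 - s) / (s * (2 - s))) = (2 - 2 * s) / s := by field_simp
    have e12 : (2 - s) * ((1 - s) / (s * (2 - s))) = (1 - s) / s := by field_simp
    have e13 : s * (2 - s) * ((1 - s) / (s * (2 - s))) = 1 - s := by field_simp
    rw [e11, e12, e13] at h6
    have h7 : X ^ ((2 - 2 * s) / s) ≤ t ^ ((1 - s) / s) • P :=
      h6.trans (smul_le_smul' H (Real.rpow_pos_of_pos ht _).le)
    have hx2 : s ∈ Icc (0 : ℝ) 1 := ⟨hs0.le, by linarith⟩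
    have h8 := pow_le hP (Real.rpow_pos_of_pos ht _) h7 hx2
    rw [rr hX, ← Real.rpow_mul ht.le] at h8
    have e14 : (2 - 2 * s) / s * s = 2 - 2 * s := by field_simp
    have e15 : (1 - s) / s * s = 1 - s := by field_simp
    rwa [e14, e15] at h8

theorem key_one {P X : A} (hP : IsStrictlyPositive P) (hX : IsStrictlyPositive X)
    (H : X * P * X ≤ P) : X ^ (2 : ℝ) ≤ 1 := by
  nontriviality A
  obtain ⟨y, hy⟩ : ∃ y, y = P ^ (-(1 / 2) : ℝ) * X * P ^ (1 / 2 : ℝ) := ⟨_, rfl⟩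
  have hPh : P ^ (1 / 2 : ℝ) * P ^ (1 / 2 : ℝ) = P := by
    rw [radd hP]
    norm_num
    exact rpow_one P hP.nonneg
  have hyy : y * star y ≤ 1 := by
    have e : y * star y = P ^ (-(1 / 2) : ℝ) * (X * P * X) * P ^ (-(1 / 2) : ℝ) := by
      rw [hy, star_mul, star_mul, rstar, rstar, hX.isSelfAdjoint.star_eq]
      calc P ^ (-(1 / 2) : ℝ) * X * P ^ (1 / 2 : ℝ) * (P ^ (1 / 2 : ℝ) * (X * P ^ (-(1 / 2) : ℝ)))
          = P ^ (-(1 / 2) : ℝ) * (X * (P ^ (1 / 2 : ℝ) * P ^ (1 / 2 : ℝ)) * X) *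
            P ^ (-(1 / 2) : ℝ) := by simp only [mul_assoc]
        _ = _ := by rw [hPh]
    rw [e]
    refine (conj_le H (rstar P _)).trans (le_of_eq ?_)
    nth_rewrite 2 [← hPh]
    calc P ^ (-(1 / 2) : ℝ) * (P ^ (1 / 2 : ℝ) * P ^ (1 / 2 : ℝ)) * P ^ (-(1 / 2) : ℝ)
        = (P ^ (-(1 / 2) : ℝ) * P ^ (1 / 2 : ℝ)) * (P ^ (1 / 2 : ℝ) * P ^ (-(1 / 2) : ℝ)) := by
          simp only [mul_assoc]
      _ = 1 := by
          rw [radd hP, radd hP, neg_add_cancel, add_neg_cancel, rpow_zero P hP.nonneg, mul_one]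
  have hyn : ‖y‖ ≤ 1 := by
    have h1 : ‖y * star y‖ ≤ 1 := by
      have := CStarAlgebra.norm_le_one_iff_of_nonneg (y * star y) (mul_star_self_nonneg y)
      exact this.2 hyy
    rw [CStarRing.norm_self_mul_star] at h1
    nlinarith [norm_nonneg y]
  -- spectral radius
  obtain ⟨v, hv⟩ : ∃ v : Aˣ, (v : A) = P ^ (1 / 2 : ℝ) := (rsp hP _).isUnit
  have hvinv : (↑v⁻¹ : A) = P ^ (-(1 / 2) : ℝ) := by
    refine Units.inv_eq_of_mul_eq_one_right ?_
    rw [hv, radd hP, add_neg_cancel, rpow_zero P hP.nonneg]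
  have hsy : spectrum ℂ y = spectrum ℂ X := by
    rw [hy, ← hv, ← hvinv]
    exact spectrum.units_conjugate'
  have hr : spectralRadius ℂ X ≤ ‖y‖₊ := by
    have h1 : spectralRadius ℂ y = spectralRadius ℂ X := by
      unfold spectralRadius
      rw [hsy]
    rw [← h1]
    exact spectrum.spectralRadius_le_nnnorm y
  have hXn : ‖X‖ ≤ 1 := by
    rw [IsSelfAdjoint.spectralRadius_eq_nnnorm hX.isSelfAdjoint] at hr
    have h2 : ‖X‖₊ ≤ ‖y‖₊ := by exact_mod_cast hr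
    have h3 : ‖X‖ ≤ ‖y‖ := h2
    exact h3.trans hyn
  have hX1 : X ≤ 1 := (CStarAlgebra.norm_le_one_iff_of_nonneg X hX.nonneg).1 hXn
  have h4 : X * X ≤ 1 := by
    have h5 : ‖X * X‖ ≤ 1 := by
      refine (norm_mul_le _ _).trans ?_
      exact mul_le_one₀ hXn (norm_nonneg _) hXn
    have h6 : 0 ≤ X * X := by
      have := star_mul_self_nonneg X
      rwa [hX.isSelfAdjoint.star_eq] at this
    exact (CStarAlgebra.norm_le_one_iff_of_nonneg _ h6).1 h5
  have e : X ^ (2 : ℝ) = X * X := by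
    have := radd hX 1 1
    rw [rpow_one X hX.nonneg] at this
    rw [this]
    norm_num
  rw [e]
  exact h4

theorem key_half {P X : A} (hP : IsStrictlyPositive P) (hX : IsStrictlyPositive X) {r : ℝ}
    (hr0 : 0 ≤ r) (hr : r ≤ 1 / 2) (H : (X * P * X) ^ r ≤ P) : X ^ (2 * r) ≤ P ^ (1 - r) := by
  obtain ⟨C, hC⟩ : ∃ C, C = X * P * X := ⟨_, rfl⟩
  have hCsp : IsStrictlyPositive C := by
    rw [hC]
    exact conj_sp hP hX
  rw [← hC] at H
  have h1 : X * C ^ r * X ≤ C := by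
    have := conj_le H hX.isSelfAdjoint.star_eq
    rwa [← hC] at this
  obtain ⟨Z, hZ⟩ : ∃ Z, Z = C ^ (r / 2) * X * C ^ (r / 2) := ⟨_, rfl⟩
  have hZsp : IsStrictlyPositive Z := by
    rw [hZ]
    exact conj_sp hX (rsp hCsp _)
  have hZ2 : Z ^ (2 : ℝ) ≤ C ^ (1 + r) := by
    have e : Z ^ (2 : ℝ) = Z * Z := by
      have := radd hZsp 1 1
      rw [rpow_one Z hZsp.nonneg] at this
      rw [this]
      norm_num
    rw [e, hZ]
    have h2 := conj_le h1 (rstar C (r / 2))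
    have e2 : C ^ (r / 2) * C * C ^ (r / 2) = C ^ (1 + r) := by
      nth_rewrite 2 [show C = C ^ (1 : ℝ) from (rpow_one C hCsp.nonneg).symm]
      rw [radd hCsp, radd hCsp]
      congr 1
      ring
    rw [e2] at h2
    refine le_trans (le_of_eq ?_) h2
    calc C ^ (r / 2) * X * C ^ (r / 2) * (C ^ (r / 2) * X * C ^ (r / 2))
        = C ^ (r / 2) * (X * (C ^ (r / 2) * C ^ (r / 2)) * X) * C ^ (r / 2) := by
          simp only [mul_assoc]
      _ = _ := by
          rw [radd hCsp]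
          ring_nf
  have hZ1 : Z ≤ C ^ ((1 + r) / 2) := by
    have h3 := rpow_le_rpow (p := 1 / 2) ⟨by norm_num, by norm_num⟩ hZ2
    rw [rr hZsp, rr hCsp] at h3
    have e1 : (2 : ℝ) * (1 / 2) = 1 := by norm_num
    have e2 : (1 + r) * (1 / 2) = (1 + r) / 2 := by ring
    rwa [e1, e2, rpow_one Z hZsp.nonneg] at h3
  have hX1 : X ≤ C ^ ((1 - r) / 2) := by
    have h4 := conj_le hZ1 (rstar C (-(r / 2)))
    have e1 : C ^ (-(r / 2)) * Z * C ^ (-(r / 2)) = X := by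
      rw [hZ]
      calc C ^ (-(r / 2)) * (C ^ (r / 2) * X * C ^ (r / 2)) * C ^ (-(r / 2))
          = (C ^ (-(r / 2)) * C ^ (r / 2)) * X * (C ^ (r / 2) * C ^ (-(r / 2))) := by
            simp only [mul_assoc]
        _ = X := by
            rw [radd hCsp, radd hCsp, neg_add_cancel, add_neg_cancel, rpow_zero C hCsp.nonneg,
              one_mul, mul_one]
    have e2 : C ^ (-(r / 2)) * C ^ ((1 + r) / 2) * C ^ (-(r / 2)) = C ^ ((1 - r) / 2) := by
      rw [radd hCsp, radd hCsp]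
      congr 1
      ring
    rwa [e1, e2] at h4
  have h5 : X ^ (2 * r) ≤ C ^ ((1 - r) * r) := by
    have h6 := rpow_le_rpow (p := 2 * r) ⟨by linarith, by linarith⟩ hX1
    rw [rr hCsp] at h6
    have e : (1 - r) / 2 * (2 * r) = (1 - r) * r := by ring
    rwa [e] at h6
  have h7 : C ^ ((1 - r) * r) ≤ P ^ (1 - r) := by
    have h8 := rpow_le_rpow (p := 1 - r) ⟨by linarith, by linarith⟩ H
    rw [rr hCsp] at h8
    have e : r * (1 - r) = (1 - r) * r := by ring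
    rwa [e] at h8
  exact h5.trans h7

/-- The operator inequality. -/
theorem key {P X : A} (hP : IsStrictlyPositive P) (hX : IsStrictlyPositive X) {r : ℝ}
    (hr0 : 0 ≤ r) (hr : r ≤ 1) (H : (X * P * X) ^ r ≤ P) : X ^ (2 * r) ≤ P ^ (1 - r) := by
  rcases le_total r (1 / 2) with h | h
  · exact key_half hP hX hr0 h H
  rcases hr.lt_or_eq with h1 | h1
  swap
  · subst h1
    rw [rpow_one (X * P * X) (conj_sp hP hX).nonneg] at H
    rw [mul_one, sub_self, rpow_zero P hP.nonneg]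
    exact key_one hP hX H
  nontriviality A
  obtain ⟨s, hs⟩ : ∃ s, s = 1 - r := ⟨_, rfl⟩
  have hrs : r = 1 - s := by rw [hs]; ring
  have hs0 : 0 < s := by rw [hs]; linarith
  have hs1 : s ≤ 1 / 2 := by rw [hs]; linarith
  rw [hrs] at H ⊢
  have e0 : 2 * (1 - s) = 2 - 2 * s := by ring
  have e1 : 1 - (1 - s) = s := by ring
  rw [e0, e1]
  obtain ⟨M, hM⟩ : ∃ M, M = P ^ (-(s / 2)) * X ^ (2 - 2 * s) * P ^ (-(s / 2)) := ⟨_, rfl⟩
  have hMsp : IsStrictlyPositive M := by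
    rw [hM]
    exact conj_sp (rsp hX _) (rsp hP _)
  have back : ∀ c : ℝ, M ≤ c • 1 ↔ X ^ (2 - 2 * s) ≤ c • P ^ s := by
    intro c
    constructor
    · intro h
      have h2 := conj_le h (rstar P (s / 2))
      have e3 : P ^ (s / 2) * M * P ^ (s / 2) = X ^ (2 - 2 * s) := by
        rw [hM]
        calc P ^ (s / 2) * (P ^ (-(s / 2)) * X ^ (2 - 2 * s) * P ^ (-(s / 2))) * P ^ (s / 2)
            = (P ^ (s / 2) * P ^ (-(s / 2))) * X ^ (2 - 2 * s) * (P ^ (-(s / 2)) * P ^ (s / 2)) := by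
              simp only [mul_assoc]
          _ = _ := by
              rw [radd hP, radd hP, neg_add_cancel, add_neg_cancel, rpow_zero P hP.nonneg,
                one_mul, mul_one]
      have e4 : P ^ (s / 2) * (c • 1) * P ^ (s / 2) = c • P ^ s := by
        rw [mul_smul_comm, mul_one, smul_mul_assoc, radd hP]
        congr 2
        ring
      rwa [e3, e4] at h2
    · intro h
      have h2 := conj_le h (rstar P (-(s / 2)))
      rw [← hM] at h2
      have e4 : P ^ (-(s / 2)) * (c • P ^ s) * P ^ (-(s / 2)) = c • 1 := by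
        rw [mul_smul_comm, smul_mul_assoc, radd hP, radd hP]
        have : -(s / 2) + s + -(s / 2) = 0 := by ring
        rw [this, rpow_zero P hP.nonneg]
      rwa [e4] at h2
  have hMn : ∀ c : ℝ, 0 ≤ c → (M ≤ c • 1 ↔ ‖M‖ ≤ c) := by
    intro c hc
    rw [← Algebra.algebraMap_eq_smul_one]
    exact (CStarAlgebra.norm_le_iff_le_algebraMap M hc hMsp.nonneg).symm
  have ht : 0 < ‖M‖ := norm_pos_iff.2 hMsp.isUnit.ne_zero
  have h2 := (back ‖M‖).1 ((hMn ‖M‖ ht.le).2 le_rfl)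
  have h3 := boot hP hX hs0 hs1 H ht h2
  have h4 := (hMn _ (Real.rpow_pos_of_pos ht _).le).1 ((back _).2 h3)
  have h5 : ‖M‖ ≤ 1 := by
    by_contra hc
    push Not at hc
    have h6 : ‖M‖ ^ (1 - s) < ‖M‖ ^ (1 : ℝ) := Real.rpow_lt_rpow_of_exponent_lt hc (by linarith)
    rw [Real.rpow_one] at h6
    linarith
  have h6 := (back 1).1 ((hMn 1 zero_le_one).2 h5)
  rwa [one_smul] at h6

end Pool.Agent.X872.DetIneq
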