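import Mathlib
import Pool.Agent.X872.DetIneq.Furuta

/-!
# Compound matrices and powers
-/

set_option autoImplicit false

open Matrix
open scoped ComplexOrder MatrixOrder Matrix.Norms.L2Operator

namespace Pool.Agent.X872.DetIneq

/-! ### The formula of Cauchy and Binet (from the file `TH461/SST/CB.lean`) -/

theorem expand {R : Type} [CommRing R] (d n : ℕ) (A : Matrix (Fin d) (Fin n) R)
    (X : Matrix (Fin n) (Fin d) R) :
    (A * X).det = ∑ f : Fin d → Fin n, (∏ i, A i (f i)) * (X.submatrix f id).det := by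
  classical
  let D := (Matrix.detRowAlternating : (Fin d → R) [⋀^(Fin d)]→ₗ[R] R).toMultilinearMap
  have h1 : (A * X).det = D (fun i => ∑ l, A i l • X l) := by
    show (A * X).det = Matrix.det (fun i => ∑ l, A i l • X l)
    congr 1
    ext i j
    simp [Matrix.mul_apply, Finset.sum_apply]
  rw [h1, D.map_sum]
  apply Finset.sum_congr rfl
  intro f _
  rw [D.map_smul_univ]
  rfl

theorem cbR {R : Type} [CommRing R] (d n : ℕ) (A : Matrix (Fin d) (Fin n) R)
    (X : Matrix (Fin n) (Fin d) R) :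
    (A * X).det = ∑ Q : {Q : Finset (Fin n) // Q.card = d},
      (A.submatrix id (Q.1.orderEmbOfFin Q.2)).det * (X.submatrix (Q.1.orderEmbOfFin Q.2) id).det := by
  classical
  rw [expand]
  have h0 : ∑ f : Fin d → Fin n, (∏ i, A i (f i)) * (X.submatrix f id).det
      = ∑ f ∈ Finset.univ.filter (fun f : Fin d → Fin n => Function.Injective f),
        (∏ i, A i (f i)) * (X.submatrix f id).det := by
    symm
    apply Finset.sum_subset (Finset.filter_subset _ _)
    intro f _ hf
    simp only [Finset.mem_filter, Finset.mem_univ, true_and] at hf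
    unfold Function.Injective at hf
    push Not at hf
    obtain ⟨a, b, hab, hne⟩ := hf
    rw [Matrix.det_zero_of_row_eq hne, mul_zero]
    ext j
    simp [Matrix.submatrix_apply, hab]
  rw [h0]
  have himg : ∀ f : Fin d → Fin n, Function.Injective f → (Finset.univ.image f).card = d := by
    intro f hf
    rw [Finset.card_image_of_injective _ hf]; simp
  rw [show (∑ Q : {Q : Finset (Fin n) // Q.card = d},
      (A.submatrix id (Q.1.orderEmbOfFin Q.2)).det * (X.submatrix (Q.1.orderEmbOfFin Q.2) id).det)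
      = ∑ Q : {Q : Finset (Fin n) // Q.card = d}, ∑ σ : Equiv.Perm (Fin d),
        (∏ i, A i (Q.1.orderEmbOfFin Q.2 (σ i))) *
          (X.submatrix (fun i => Q.1.orderEmbOfFin Q.2 (σ i)) id).det from ?_]
  · rw [← Finset.sum_product' (Finset.univ : Finset {Q : Finset (Fin n) // Q.card = d})
      (Finset.univ : Finset (Equiv.Perm (Fin d)))
      (fun Q σ => (∏ i, A i (Q.1.orderEmbOfFin Q.2 (σ i))) *
          (X.submatrix (fun i => Q.1.orderEmbOfFin Q.2 (σ i)) id).det)]
    symm
    refine Finset.sum_bij (fun p _ => fun i => p.1.1.orderEmbOfFin p.1.2 (p.2 i)) ?_ ?_ ?_ ?_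
    · intro p _
      simp only [Finset.mem_filter, Finset.mem_univ, true_and]
      intro a b hab
      exact p.2.injective ((p.1.1.orderEmbOfFin p.1.2).injective hab)
    · intro p _ q _ hpq
      have hr : ∀ p : {Q : Finset (Fin n) // Q.card = d} × Equiv.Perm (Fin d),
          Finset.univ.image (fun i => p.1.1.orderEmbOfFin p.1.2 (p.2 i)) = p.1.1 := by
        intro p
        ext x
        simp only [Finset.mem_image, Finset.mem_univ, true_and]
        constructor
        · rintro ⟨i, rfl⟩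
          exact Finset.orderEmbOfFin_mem _ _ _
        · intro hx
          refine ⟨p.2.symm ((p.1.1.orderIsoOfFin p.1.2).symm ⟨x, hx⟩), ?_⟩
          rw [Equiv.apply_symm_apply, ← Finset.coe_orderIsoOfFin_apply]
          simp
      have h1 : p.1 = q.1 := by
        apply Subtype.ext
        rw [← hr p, ← hr q, hpq]
      obtain ⟨P, σ⟩ := p
      obtain ⟨P', σ'⟩ := q
      simp only at h1
      subst h1
      congr 1
      ext i
      have := congrFun hpq i
      simp only at this
      exact congrArg _ ((P.1.orderEmbOfFin P.2).injective this)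
    · intro f hf
      simp only [Finset.mem_filter, Finset.mem_univ, true_and] at hf
      set Q := Finset.univ.image f with hQ
      have hc : Q.card = d := himg f hf
      let g : Fin d → Fin d := fun i => (Q.orderIsoOfFin hc).symm
        ⟨f i, Finset.mem_image_of_mem _ (Finset.mem_univ i)⟩
      have hg : Function.Injective g := by
        intro a b hab
        have := (Q.orderIsoOfFin hc).symm.injective hab
        exact hf (Subtype.mk.inj this)
      refine ⟨(⟨Q, hc⟩, Equiv.ofBijective g (Finite.injective_iff_bijective.1 hg)),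
        Finset.mem_product.2 ⟨Finset.mem_univ _, Finset.mem_univ _⟩, ?_⟩
      ext i
      simp only [Equiv.ofBijective_apply]
      rw [← Finset.coe_orderIsoOfFin_apply]
      simp [g]
    · intro p _
      rfl
  · apply Finset.sum_congr rfl
    intro Q _
    have h2 : ∀ σ : Equiv.Perm (Fin d), (X.submatrix (fun i => Q.1.orderEmbOfFin Q.2 (σ i)) id).det
        = ((Equiv.Perm.sign σ : ℤ) : R) * (X.submatrix (Q.1.orderEmbOfFin Q.2) id).det := by
      intro σ
      have := Matrix.det_permute σ (X.submatrix (Q.1.orderEmbOfFin Q.2) id)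
      rw [← this]
      rfl
    simp_rw [h2]
    rw [← Matrix.det_transpose (A.submatrix id (Q.1.orderEmbOfFin Q.2)), Matrix.det_apply',
      Finset.sum_mul]
    apply Finset.sum_congr rfl
    intro σ _
    simp only [Matrix.transpose_apply, Matrix.submatrix_apply, id]
    ring

/-- index sets of the compound -/
abbrev Ix (n k : ℕ) : Type := {Q : Finset (Fin n) // Q.card = k}

/-- the `k`-th compound matrix -/
noncomputable def cpd {n : ℕ} (k : ℕ) (T : Matrix (Fin n) (Fin n) ℂ) :
    Matrix (Ix n k) (Ix n k) ℂ :=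
  fun I J => (T.submatrix (I.1.orderEmbOfFin I.2) (J.1.orderEmbOfFin J.2)).det

theorem cpd_mul {n k : ℕ} (S T : Matrix (Fin n) (Fin n) ℂ) :
    cpd k (S * T) = cpd k S * cpd k T := by
  ext I J
  have h1 : (S * T).submatrix (I.1.orderEmbOfFin I.2) (J.1.orderEmbOfFin J.2) =
      S.submatrix (I.1.orderEmbOfFin I.2) id * T.submatrix id (J.1.orderEmbOfFin J.2) := by
    ext i j
    simp [Matrix.mul_apply, Matrix.submatrix_apply]
  rw [Matrix.mul_apply]
  unfold cpd
  rw [h1, cbR]
  rfl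

theorem cpd_star {n k : ℕ} (T : Matrix (Fin n) (Fin n) ℂ) : cpd k Tᴴ = (cpd k T)ᴴ := by
  ext I J
  rw [conjTranspose_apply]
  unfold cpd
  rw [← det_conjTranspose, conjTranspose_submatrix]

/-- products over index sets -/
noncomputable def lamP {n k : ℕ} (lam : Fin n → ℝ) (J : Ix n k) : ℝ := ∏ j ∈ J.1, lam j

theorem lamP_eq {n k : ℕ} (lam : Fin n → ℝ) (J : Ix n k) :
    ∏ i : Fin k, lam (J.1.orderEmbOfFin J.2 i) = lamP lam J := by
  unfold lamP
  conv_rhs => rw [← Finset.map_orderEmbOfFin_univ J.1 J.2]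
  rw [Finset.prod_map]
  rfl

theorem lamP_pos {n k : ℕ} {lam : Fin n → ℝ} (h : ∀ i, 0 < lam i) (J : Ix n k) : 0 < lamP lam J :=
  Finset.prod_pos fun i _ => h i

theorem cpd_diag {n k : ℕ} (lam : Fin n → ℝ) :
    cpd k (Matrix.diagonal fun i => (lam i : ℂ)) =
      Matrix.diagonal (fun J => ((lamP lam J : ℝ) : ℂ)) := by
  ext I J
  by_cases h : I = J
  · subst h
    rw [Matrix.diagonal_apply_eq]
    simp only [cpd]
    rw [Matrix.submatrix_diagonal _ _ (I.1.orderEmbOfFin I.2).injective, Matrix.det_diagonal,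
      ← lamP_eq lam I]
    push_cast
    rfl
  · rw [Matrix.diagonal_apply_ne _ h]
    simp only [cpd]
    have : ∃ i ∈ I.1, i ∉ J.1 := by
      by_contra hcon
      push Not at hcon
      apply h
      apply Subtype.ext
      exact Finset.eq_of_subset_of_card_le hcon (by rw [I.2, J.2])
    obtain ⟨i, hi, hiJ⟩ := this
    have h2 : i ∈ Set.range (I.1.orderEmbOfFin I.2) := by
      rw [Finset.range_orderEmbOfFin]
      exact hi
    obtain ⟨a, ha⟩ := h2
    apply Matrix.det_eq_zero_of_row_eq_zero a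
    intro j
    rw [Matrix.submatrix_apply, ha]
    apply Matrix.diagonal_apply_ne
    intro h3
    apply hiJ
    rw [h3]
    exact Finset.orderEmbOfFin_mem J.1 J.2 j

theorem cpd_one {n k : ℕ} : cpd k (1 : Matrix (Fin n) (Fin n) ℂ) = 1 := by
  have h := cpd_diag (n := n) (k := k) (fun _ => 1)
  simp only [Complex.ofReal_one] at h
  rw [diagonal_one] at h
  rw [h]
  have : (fun J : Ix n k => ((lamP (fun _ => (1 : ℝ)) J : ℝ) : ℂ)) = fun _ => 1 := by
    funext J
    simp [lamP]
  rw [this, diagonal_one]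

/-! ### Powers -/

theorem spec_rpow {ι : Type} [Fintype ι] [DecidableEq ι] (A : Matrix ι ι ℂ) (hA : A.PosSemidef)
    (p : ℝ) : (hA.isHermitian.eigenvectorUnitary : Matrix ι ι ℂ)
            * Matrix.diagonal (fun i => Complex.ofReal (hA.isHermitian.eigenvalues i ^ p))
            * star (hA.isHermitian.eigenvectorUnitary : Matrix ι ι ℂ) = A ^ p := by
  have h1 : A ^ p = cfc (fun x : ℝ => x ^ p) A :=
    CFC.rpow_eq_cfc_real (a := A) (y := p) (Matrix.nonneg_iff_posSemidef.mpr hA)
  rw [h1, hA.isHermitian.cfc_eq, Matrix.IsHermitian.cfc, Unitary.conjStarAlgAut_apply]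
  rfl

/-- If `A = W diag(d) W*` with `W` unitary, then `A^x = W diag(d^x) W*`. -/
theorem rpow_of_diag {ι : Type} [Fintype ι] [DecidableEq ι] {A W : Matrix ι ι ℂ}
    (hA : A.PosSemidef) (hW1 : W * Wᴴ = 1) (hW2 : Wᴴ * W = 1) {d : ι → ℝ}
    (h : A = W * Matrix.diagonal (fun i => (d i : ℂ)) * Wᴴ) (x : ℝ) :
    A ^ x = W * Matrix.diagonal (fun i => ((d i ^ x : ℝ) : ℂ)) * Wᴴ := by
  obtain ⟨U, hU⟩ : ∃ U : Matrix ι ι ℂ, U = (hA.isHermitian.eigenvectorUnitary : Matrix ι ι ℂ) :=
    ⟨_, rfl⟩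
  have hU1 : Uᴴ * U = 1 := by
    rw [hU]
    exact Unitary.coe_star_mul_self hA.isHermitian.eigenvectorUnitary
  have hU2 : U * Uᴴ = 1 := by
    rw [hU]
    exact Unitary.coe_mul_star_self hA.isHermitian.eigenvectorUnitary
  obtain ⟨e, he⟩ : ∃ e, e = hA.isHermitian.eigenvalues := ⟨_, rfl⟩
  have hs : A = U * Matrix.diagonal (fun i => (e i : ℂ)) * Uᴴ := by
    rw [hU, he]
    have h := hA.isHermitian.spectral_theorem
    rw [Unitary.conjStarAlgAut_apply] at h
    exact h
  have hx : A ^ x = U * Matrix.diagonal (fun i => ((e i ^ x : ℝ) : ℂ)) * Uᴴ := by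
    rw [hU, he]
    exact (spec_rpow A hA x).symm
  obtain ⟨V, hV⟩ : ∃ V, V = Wᴴ * U := ⟨_, rfl⟩
  have hDV : Matrix.diagonal (fun i => (d i : ℂ)) * V = V * Matrix.diagonal (fun i => (e i : ℂ)) := by
    have h1 : Wᴴ * A = Matrix.diagonal (fun i => (d i : ℂ)) * Wᴴ := by
      rw [h, ← Matrix.mul_assoc, ← Matrix.mul_assoc, hW2, Matrix.one_mul]
    have h2 : A * U = U * Matrix.diagonal (fun i => (e i : ℂ)) := by
      nth_rewrite 1 [hs]
      rw [Matrix.mul_assoc, hU1, Matrix.mul_one]
    rw [hV, ← Matrix.mul_assoc, ← h1, Matrix.mul_assoc, h2, Matrix.mul_assoc]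
  have hDVx : Matrix.diagonal (fun i => ((d i ^ x : ℝ) : ℂ)) * V =
      V * Matrix.diagonal (fun i => ((e i ^ x : ℝ) : ℂ)) := by
    ext i j
    have h1 := congrFun (congrFun hDV i) j
    rw [Matrix.diagonal_mul, Matrix.mul_diagonal] at h1 ⊢
    by_cases hij : V i j = 0
    · rw [hij, mul_zero, zero_mul]
    · rw [mul_comm] at h1
      have h2 := mul_left_cancel₀ hij h1
      have h3 : d i = e j := by exact_mod_cast h2
      rw [h3, mul_comm]
  have hVU : V * Uᴴ = Wᴴ := by rw [hV, Matrix.mul_assoc, hU2, Matrix.mul_one]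
  have hWV : W * V = U := by rw [hV, ← Matrix.mul_assoc, hW1, Matrix.one_mul]
  calc A ^ x = W * V * Matrix.diagonal (fun i => ((e i ^ x : ℝ) : ℂ)) * Uᴴ := by rw [hx, hWV]
    _ = W * (V * Matrix.diagonal (fun i => ((e i ^ x : ℝ) : ℂ))) * Uᴴ := by
        simp only [Matrix.mul_assoc]
    _ = W * (Matrix.diagonal (fun i => ((d i ^ x : ℝ) : ℂ)) * V) * Uᴴ := by rw [hDVx]
    _ = W * Matrix.diagonal (fun i => ((d i ^ x : ℝ) : ℂ)) * (V * Uᴴ) := by
        simp only [Matrix.mul_assoc]
    _ = _ := by rw [hVU]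

/-- a positive definite matrix is unitarily diagonal -/
theorem exists_diag {ι : Type} [Fintype ι] [DecidableEq ι] {A : Matrix ι ι ℂ} (hA : A.PosDef) :
    ∃ (W : Matrix ι ι ℂ) (d : ι → ℝ), W * Wᴴ = 1 ∧ Wᴴ * W = 1 ∧ (∀ i, 0 < d i) ∧
      A = W * Matrix.diagonal (fun i => (d i : ℂ)) * Wᴴ := by
  refine ⟨(hA.isHermitian.eigenvectorUnitary : Matrix ι ι ℂ), hA.isHermitian.eigenvalues,
    Unitary.coe_mul_star_self _, Unitary.coe_star_mul_self _, fun i => hA.eigenvalues_pos i, ?_⟩
  have h := hA.isHermitian.spectral_theorem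
  rw [Unitary.conjStarAlgAut_apply] at h
  exact h

theorem posDef_of_diag {ι : Type} [Fintype ι] [DecidableEq ι] {W : Matrix ι ι ℂ} {d : ι → ℝ}
    (hW1 : W * Wᴴ = 1) (hd : ∀ i, 0 < d i) :
    (W * Matrix.diagonal (fun i => (d i : ℂ)) * Wᴴ).PosDef := by
  have h1 : (Matrix.diagonal (fun i => (d i : ℂ))).PosDef := by
    rw [Matrix.posDef_diagonal_iff]
    intro i
    exact_mod_cast hd i
  have hinj : Function.Injective Wᴴ.mulVec := by
    intro v w hvw
    have := congrArg (W.mulVec) hvw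
    simpa [Matrix.mulVec_mulVec, hW1] using this
  have := h1.conjTranspose_mul_mul_same hinj
  rwa [conjTranspose_conjTranspose] at this

theorem cpd_unitary {n k : ℕ} {W : Matrix (Fin n) (Fin n) ℂ} (h : W * Wᴴ = 1) :
    cpd k W * (cpd k W)ᴴ = 1 := by
  rw [← cpd_star, ← cpd_mul, h, cpd_one]

theorem cpd_unitary' {n k : ℕ} {W : Matrix (Fin n) (Fin n) ℂ} (h : Wᴴ * W = 1) :
    (cpd k W)ᴴ * cpd k W = 1 := by
  rw [← cpd_star, ← cpd_mul, h, cpd_one]

theorem cpd_posDef {n k : ℕ} {A : Matrix (Fin n) (Fin n) ℂ} (hA : A.PosDef) : (cpd k A).PosDef := by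
  obtain ⟨W, d, h1, h2, hd, h⟩ := exists_diag hA
  rw [h, cpd_mul, cpd_mul, cpd_star, cpd_diag]
  exact posDef_of_diag (cpd_unitary h1) (fun J => lamP_pos hd J)

theorem lamP_rpow {n k : ℕ} {d : Fin n → ℝ} (hd : ∀ i, 0 < d i) (J : Ix n k) (x : ℝ) :
    lamP (fun i => d i ^ x) J = lamP d J ^ x := by
  unfold lamP
  rw [Real.finsetProd_rpow _ _ fun i _ => (hd i).le]

theorem cpd_rpow {n k : ℕ} {A : Matrix (Fin n) (Fin n) ℂ} (hA : A.PosDef) (x : ℝ) :
    cpd k (A ^ x) = (cpd k A) ^ x := by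
  obtain ⟨W, d, h1, h2, hd, h⟩ := exists_diag hA
  have e1 := rpow_of_diag hA.posSemidef h1 h2 h x
  have e2 : cpd k A = cpd k W * Matrix.diagonal (fun J => ((lamP d J : ℝ) : ℂ)) * (cpd k W)ᴴ := by
    rw [h, cpd_mul, cpd_mul, cpd_star, cpd_diag]
  have e3 := rpow_of_diag (cpd_posDef (k := k) hA).posSemidef (cpd_unitary h1) (cpd_unitary' h2) e2 x
  rw [e1, e3, cpd_mul, cpd_mul, cpd_star, cpd_diag]
  simp only [lamP_rpow hd]

end Pool.Agent.X872.DetIneq
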