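import Mathlib
import Pool.Agent.X872.DetIneq.Cpd
import Pool.Agent.Helper296.Bourin

/-!
# The determinant inequality

For positive definite `P`, `X` and `0 < r ≤ 1`:
`det (P + P^r X^(2r)) ≤ det (P + (X P X)^r)`, by weak log-majorisation.
-/

set_option autoImplicit false

open Matrix
open scoped ComplexOrder MatrixOrder Matrix.Norms.L2Operator

namespace Pool.Agent.X872.DetIneq

section scaled

variable {A : Type*} [CStarAlgebra A] [PartialOrder A] [StarOrderedRing A]

theorem key_scaled {P X : A} (hP : IsStrictlyPositive P) (hX : IsStrictlyPositive X) {r : ℝ}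
    (hr0 : 0 < r) (hr : r ≤ 1) {a : ℝ} (ha : 0 < a) (H : (X * P * X) ^ r ≤ a • P) :
    X ^ (2 * r) ≤ a • P ^ (1 - r) := by
  obtain ⟨c, hc⟩ : ∃ c : ℝ, c = a ^ (-(1 / (2 * r))) := ⟨_, rfl⟩
  have hc0 : 0 < c := by rw [hc]; exact Real.rpow_pos_of_pos ha _
  have hca : c ^ (2 * r) = a⁻¹ := by
    rw [hc, ← Real.rpow_mul ha.le]
    have : -(1 / (2 * r)) * (2 * r) = -1 := by field_simp
    rw [this, Real.rpow_neg_one]
  have hXc : IsStrictlyPositive (c • X) := IsStrictlyPositive.smul hc0 hX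
  have e1 : (c • X) * P * (c • X) = c ^ (2 : ℝ) • (X * P * X) := by
    rw [smul_mul_assoc, smul_mul_assoc, mul_smul_comm, smul_smul]
    congr 1
    rw [Real.rpow_two]
    ring
  have h1 : ((c • X) * P * (c • X)) ^ r ≤ P := by
    rw [e1, smul_rpow' (conj_sp hP hX) (Real.rpow_pos_of_pos hc0 _), ← Real.rpow_mul hc0.le, hca]
    have := smul_le_smul' H (inv_pos.2 ha).le
    rwa [smul_smul, inv_mul_cancel₀ ha.ne', one_smul] at this
  have h2 := key hP hXc hr0.le hr h1
  rw [smul_rpow' hX hc0, hca] at h2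
  have h3 := smul_le_smul' h2 ha.le
  rwa [smul_smul, mul_inv_cancel₀ ha.ne', one_smul] at h3

end scaled

/-- a positive definite matrix is unitarily diagonal, with decreasing diagonal -/
theorem exists_diag_anti {n : ℕ} {A : Matrix (Fin n) (Fin n) ℂ} (hA : A.PosDef) :
    ∃ (W : Matrix (Fin n) (Fin n) ℂ) (d : Fin n → ℝ), W * Wᴴ = 1 ∧ Wᴴ * W = 1 ∧ (∀ i, 0 < d i) ∧
      Antitone d ∧ A = W * Matrix.diagonal (fun i => (d i : ℂ)) * Wᴴ := by
  obtain ⟨W, d, h1, h2, hd, h⟩ := exists_diag hA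
  obtain ⟨σ, hσ⟩ : ∃ σ : Equiv.Perm (Fin n), σ = Tuple.sort (fun i => - d i) := ⟨_, rfl⟩
  have hanti : Antitone (d ∘ σ) := by
    have := Tuple.monotone_sort (fun i => - d i)
    intro i j hij
    have h3 := this hij
    simp only [Function.comp_apply, hσ] at h3 ⊢
    linarith
  refine ⟨W.submatrix id σ, d ∘ σ, ?_, ?_, fun i => hd _, hanti, ?_⟩
  · rw [conjTranspose_submatrix, Matrix.submatrix_mul_equiv, h1, submatrix_id_id]
  · rw [conjTranspose_submatrix]
    have : Wᴴ.submatrix σ id * W.submatrix id σ = (Wᴴ * W).submatrix σ σ := by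
      ext i j
      simp [Matrix.mul_apply]
    rw [this, h2, submatrix_one_equiv]
  · have e : Matrix.diagonal (fun i => (((d ∘ σ) i : ℝ) : ℂ)) =
        (Matrix.diagonal (fun i => (d i : ℂ))).submatrix σ σ := by
      rw [submatrix_diagonal_equiv]
      rfl
    rw [e, conjTranspose_submatrix, Matrix.submatrix_mul_equiv, Matrix.submatrix_mul_equiv,
      submatrix_id_id]
    exact h

/-- the first `k` indices -/
def I0 {n k : ℕ} (hk : k ≤ n) : Ix n k :=
  ⟨Finset.univ.filter (fun i : Fin n => (i : ℕ) < k), by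
    have : Finset.univ.filter (fun i : Fin n => (i : ℕ) < k) =
        Finset.univ.image (Fin.castLE hk) := by
      ext i
      simp only [Finset.mem_filter, Finset.mem_univ, true_and, Finset.mem_image]
      constructor
      · intro h
        exact ⟨⟨i, h⟩, by ext; rfl⟩
      · rintro ⟨j, rfl⟩
        exact j.2
    rw [this, Finset.card_image_of_injective _ (Fin.castLE_injective hk), Finset.card_univ,
      Fintype.card_fin]⟩

theorem lamP_le {n k : ℕ} (hk : k ≤ n) {d : Fin n → ℝ} (hd : ∀ i, 0 < d i) (ha : Antitone d)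
    (J : Ix n k) : lamP d J ≤ lamP d (I0 hk) := by
  rw [← lamP_eq, ← lamP_eq]
  refine Finset.prod_le_prod (fun i _ => (hd _).le) (fun i _ => ?_)
  apply ha
  -- the `i`-th element of `I0` is `i`, which is at most the `i`-th element of `J`
  have h1 : ((I0 hk).1.orderEmbOfFin (I0 hk).2 i : Fin n) = Fin.castLE hk i := by
    have h2 : (Fin.castLEOrderEmb hk : Fin k ↪o Fin n) = (I0 hk).1.orderEmbOfFin (I0 hk).2 := by
      apply Finset.orderEmbOfFin_unique'
      intro j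
      simp only [I0, Finset.mem_filter, Finset.mem_univ, true_and]
      exact j.2
    rw [← h2]
    rfl
  rw [h1, Fin.le_def]
  simp only [Fin.val_castLE]
  have h3 : ∀ m : ℕ, ∀ hm : m < k, m ≤ (J.1.orderEmbOfFin J.2 ⟨m, hm⟩ : Fin n) := by
    intro m
    induction m with
    | zero => intro _; exact Nat.zero_le _
    | succ m ih =>
      intro hm
      have h4 := ih (by omega)
      have h5 : (J.1.orderEmbOfFin J.2 ⟨m, by omega⟩ : Fin n) <
          (J.1.orderEmbOfFin J.2 ⟨m + 1, hm⟩ : Fin n) := by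
        rw [OrderEmbedding.lt_iff_lt]
        exact Fin.mk_lt_mk.2 (Nat.lt_succ_self m)
      have h6 : ((J.1.orderEmbOfFin J.2 ⟨m, by omega⟩ : Fin n) : ℕ) <
          (J.1.orderEmbOfFin J.2 ⟨m + 1, hm⟩ : Fin n) := h5
      omega
  exact h3 i.1 i.2

/-- `W diag(d) W* ≤ a` iff all `d i ≤ a` -/
theorem diag_le {ι : Type} [Fintype ι] [DecidableEq ι] {W : Matrix ι ι ℂ} {d : ι → ℝ}
    (hW1 : W * Wᴴ = 1) {a : ℝ} (hd : ∀ i, d i ≤ a) :
    W * Matrix.diagonal (fun i => (d i : ℂ)) * Wᴴ ≤ a • (1 : Matrix ι ι ℂ) := by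
  have h1 : Matrix.diagonal (fun i => (d i : ℂ)) ≤ a • (1 : Matrix ι ι ℂ) := by
    rw [Matrix.le_iff]
    have : a • (1 : Matrix ι ι ℂ) - Matrix.diagonal (fun i => (d i : ℂ)) =
        Matrix.diagonal (fun i => ((a - d i : ℝ) : ℂ)) := by
      ext i j
      by_cases h : i = j
      · subst h
        simp
      · simp [h]
    rw [this]
    refine Matrix.PosSemidef.diagonal ?_
    intro i
    have := hd i
    simp only [Pi.zero_apply]
    exact_mod_cast sub_nonneg.2 this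
  have h2 := star_right_conjugate_le_conjugate h1 W
  rw [Matrix.star_eq_conjTranspose] at h2
  refine h2.trans (le_of_eq ?_)
  rw [mul_smul_comm, smul_mul_assoc, Matrix.mul_one, hW1]

theorem le_of_diag_le {ι : Type} [Fintype ι] [DecidableEq ι] {W : Matrix ι ι ℂ} {d : ι → ℝ}
    (hW2 : Wᴴ * W = 1) {a : ℝ}
    (h : W * Matrix.diagonal (fun i => (d i : ℂ)) * Wᴴ ≤ a • (1 : Matrix ι ι ℂ)) (i : ι) :
    d i ≤ a := by
  have h2 := star_left_conjugate_le_conjugate h W
  rw [Matrix.star_eq_conjTranspose] at h2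
  have e1 : Wᴴ * (W * Matrix.diagonal (fun i => (d i : ℂ)) * Wᴴ) * W =
      Matrix.diagonal (fun i => (d i : ℂ)) := by
    calc Wᴴ * (W * Matrix.diagonal (fun i => (d i : ℂ)) * Wᴴ) * W
        = (Wᴴ * W) * Matrix.diagonal (fun i => (d i : ℂ)) * (Wᴴ * W) := by
          simp only [Matrix.mul_assoc]
      _ = _ := by rw [hW2, Matrix.one_mul, Matrix.mul_one]
  have e2 : Wᴴ * (a • (1 : Matrix ι ι ℂ)) * W = a • (1 : Matrix ι ι ℂ) := by
    rw [mul_smul_comm, smul_mul_assoc, Matrix.mul_one, hW2]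
  rw [e1, e2, Matrix.le_iff] at h2
  have h3 := h2.diag_nonneg (i := i)
  simp only [Matrix.sub_apply, Matrix.smul_apply, Matrix.one_apply_eq, Matrix.diagonal_apply_eq] at h3
  have h4 : (0 : ℂ) ≤ ((a - d i : ℝ) : ℂ) := by
    refine h3.trans (le_of_eq ?_)
    push_cast
    simp
  have h5 : 0 ≤ a - d i := by exact_mod_cast h4
  linarith

/-- weak log-majorisation -/
theorem logmaj {n : ℕ} {P X : Matrix (Fin n) (Fin n) ℂ} (hP : P.PosDef) (hX : X.PosDef) {r : ℝ}
    (hr0 : 0 < r) (hr : r ≤ 1) {U V : Matrix (Fin n) (Fin n) ℂ} {x y : Fin n → ℝ}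
    (hU1 : U * Uᴴ = 1) (hV2 : Vᴴ * V = 1) (hx : ∀ i, 0 < x i)
    (hxa : Antitone x)
    (h1 : P ^ (-(1 / 2) : ℝ) * (X * P * X) ^ r * P ^ (-(1 / 2) : ℝ) =
      U * Matrix.diagonal (fun i => (x i : ℂ)) * Uᴴ)
    (h2 : P ^ (-((1 - r) / 2)) * X ^ (2 * r) * P ^ (-((1 - r) / 2)) =
      V * Matrix.diagonal (fun i => (y i : ℂ)) * Vᴴ) {k : ℕ} (hk : k ≤ n) :
    lamP y (I0 hk) ≤ lamP x (I0 hk) := by
  obtain ⟨a, ha⟩ : ∃ a, a = lamP x (I0 hk) := ⟨_, rfl⟩
  have ha0 : 0 < a := by rw [ha]; exact lamP_pos hx _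
  have hPs : IsStrictlyPositive P := hP.isStrictlyPositive
  have hXs : IsStrictlyPositive X := hX.isStrictlyPositive
  have hCs : IsStrictlyPositive (X * P * X) := conj_sp hPs hXs
  have hC : (X * P * X).PosDef := hCs.posDef
  have hkP : IsStrictlyPositive (cpd k P) := (cpd_posDef hP).isStrictlyPositive
  have hkX : IsStrictlyPositive (cpd k X) := (cpd_posDef hX).isStrictlyPositive
  -- upper bound for the compound of the first matrix
  have b1 : cpd k (P ^ (-(1 / 2) : ℝ) * (X * P * X) ^ r * P ^ (-(1 / 2) : ℝ)) ≤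
      a • (1 : Matrix (Ix n k) (Ix n k) ℂ) := by
    rw [h1, cpd_mul, cpd_mul, cpd_star, cpd_diag]
    exact diag_le (cpd_unitary hU1) (fun J => by rw [ha]; exact lamP_le hk hx hxa J)
  rw [cpd_mul, cpd_mul, cpd_rpow hP, cpd_rpow hC, cpd_mul, cpd_mul] at b1
  have b2 : (cpd k X * cpd k P * cpd k X) ^ r ≤ a • cpd k P := by
    have b3 := conj_le b1 (rstar (cpd k P) (1 / 2))
    have e1 : (cpd k P) ^ (1 / 2 : ℝ) * ((cpd k P) ^ (-(1 / 2) : ℝ) *
        (cpd k X * cpd k P * cpd k X) ^ r * (cpd k P) ^ (-(1 / 2) : ℝ)) * (cpd k P) ^ (1 / 2 : ℝ) =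
        (cpd k X * cpd k P * cpd k X) ^ r := by
      calc (cpd k P) ^ (1 / 2 : ℝ) * ((cpd k P) ^ (-(1 / 2) : ℝ) *
          (cpd k X * cpd k P * cpd k X) ^ r * (cpd k P) ^ (-(1 / 2) : ℝ)) * (cpd k P) ^ (1 / 2 : ℝ)
          = ((cpd k P) ^ (1 / 2 : ℝ) * (cpd k P) ^ (-(1 / 2) : ℝ)) *
            (cpd k X * cpd k P * cpd k X) ^ r *
            ((cpd k P) ^ (-(1 / 2) : ℝ) * (cpd k P) ^ (1 / 2 : ℝ)) := by
            simp only [Matrix.mul_assoc]
        _ = _ := by
            rw [radd hkP, radd hkP, add_neg_cancel, neg_add_cancel,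
              CFC.rpow_zero (cpd k P) hkP.nonneg, Matrix.one_mul, Matrix.mul_one]
    have e2 : (cpd k P) ^ (1 / 2 : ℝ) * (a • (1 : Matrix (Ix n k) (Ix n k) ℂ)) *
        (cpd k P) ^ (1 / 2 : ℝ) = a • cpd k P := by
      rw [mul_smul_comm, Matrix.mul_one, smul_mul_assoc, radd hkP]
      norm_num
      rw [CFC.rpow_one (cpd k P) hkP.nonneg]
    rwa [e1, e2] at b3
  have b4 := key_scaled hkP hkX hr0 hr ha0 b2
  have b5 : cpd k (P ^ (-((1 - r) / 2)) * X ^ (2 * r) * P ^ (-((1 - r) / 2))) ≤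
      a • (1 : Matrix (Ix n k) (Ix n k) ℂ) := by
    rw [cpd_mul, cpd_mul, cpd_rpow hP, cpd_rpow hX]
    have b6 := conj_le b4 (rstar (cpd k P) (-((1 - r) / 2)))
    refine b6.trans (le_of_eq ?_)
    rw [mul_smul_comm, smul_mul_assoc, radd hkP, radd hkP]
    have : -((1 - r) / 2) + (1 - r) + -((1 - r) / 2) = 0 := by ring
    rw [this, CFC.rpow_zero (cpd k P) hkP.nonneg]
  rw [h2, cpd_mul, cpd_mul, cpd_star, cpd_diag] at b5
  rw [← ha]
  exact le_of_diag_le (cpd_unitary' hV2) b5 (I0 hk)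

theorem one_add_ge {x y : ℝ} (hx : 0 < x) (hy : 0 < y) :
    y / (1 + y) * (Real.log x - Real.log y) ≤ Real.log (1 + x) - Real.log (1 + y) := by
  have h1 : 0 < 1 + y := by linarith
  have hw : 1 / (1 + y) + y / (1 + y) = 1 := by field_simp
  have h2 := Real.geom_mean_le_arith_mean2_weighted (w₁ := 1 / (1 + y)) (w₂ := y / (1 + y))
    (p₁ := 1) (p₂ := x / y) (by positivity) (by positivity) zero_le_one (by positivity) hw
  rw [Real.one_rpow, one_mul] at h2
  have e : 1 / (1 + y) * 1 + y / (1 + y) * (x / y) = (1 + x) / (1 + y) := by field_simp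
  rw [e] at h2
  have h3 := Real.log_le_log (Real.rpow_pos_of_pos (div_pos hx hy) _) h2
  rw [Real.log_rpow (div_pos hx hy), Real.log_div hx.ne' hy.ne', Real.log_div (by positivity) h1.ne']
    at h3
  exact h3

theorem prod_le {n : ℕ} {x y : Fin n → ℝ} (hx : ∀ i, 0 < x i) (hy : ∀ i, 0 < y i)
    (hya : Antitone y) (h : ∀ k (hk : k ≤ n), lamP y (I0 hk) ≤ lamP x (I0 hk)) :
    ∏ i, (1 + y i) ≤ ∏ i, (1 + x i) := by
  have hlog : ∀ k : ℕ, ∑ i ∈ Finset.univ.filter (fun i : Fin n => (i : ℕ) < k), Real.log (y i) ≤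
      ∑ i ∈ Finset.univ.filter (fun i : Fin n => (i : ℕ) < k), Real.log (x i) := by
    have h0 : ∀ k, k ≤ n → ∑ i ∈ Finset.univ.filter (fun i : Fin n => (i : ℕ) < k), Real.log (y i) ≤
      ∑ i ∈ Finset.univ.filter (fun i : Fin n => (i : ℕ) < k), Real.log (x i) := by
      intro k hk
      rw [← Real.log_prod (fun i _ => (hy i).ne'), ← Real.log_prod (fun i _ => (hx i).ne')]
      exact Real.log_le_log (Finset.prod_pos fun i _ => hy i) (h k hk)
    intro k
    rcases le_total k n with hk | hk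
    · exact h0 k hk
    · have e : Finset.univ.filter (fun i : Fin n => (i : ℕ) < k) =
          Finset.univ.filter (fun i : Fin n => (i : ℕ) < n) := by
        ext i
        simp only [Finset.mem_filter, Finset.mem_univ, true_and]
        have := i.2
        omega
      rw [e]
      exact h0 n le_rfl
  have hwa : Antitone (fun i => y i / (1 + y i)) := by
    intro i j hij
    have h1 := hya hij
    have h2 := hy i
    have h3 := hy j
    simp only
    rw [div_le_div_iff₀ (by linarith) (by linarith)]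
    nlinarith
  have hg := Pool.Agent.Helper296.Bourin.gd_weak (fun i => y i / (1 + y i))
    (fun i => Real.log (y i)) (fun i => Real.log (x i)) hwa
    (fun i => div_nonneg (hy i).le (by linarith [hy i])) hlog
  have h4 : ∑ i, Real.log (1 + y i) ≤ ∑ i, Real.log (1 + x i) := by
    have h5 : ∑ i, (y i / (1 + y i) * (Real.log (x i) - Real.log (y i))) ≤
        ∑ i, (Real.log (1 + x i) - Real.log (1 + y i)) :=
      Finset.sum_le_sum fun i _ => one_add_ge (hx i) (hy i)
    simp only [mul_sub, Finset.sum_sub_distrib] at h5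
    linarith
  rw [← Real.log_prod (fun i _ => by have := hy i; positivity),
    ← Real.log_prod (fun i _ => by have := hx i; positivity)] at h4
  exact (Real.log_le_log_iff (Finset.prod_pos fun i _ => by have := hy i; positivity)
    (Finset.prod_pos fun i _ => by have := hx i; positivity)).1 h4

theorem det_one_add {n : ℕ} {W : Matrix (Fin n) (Fin n) ℂ} {d : Fin n → ℝ} (hW1 : W * Wᴴ = 1) :
    (1 + W * Matrix.diagonal (fun i => (d i : ℂ)) * Wᴴ).det = ((∏ i, (1 + d i) : ℝ) : ℂ) := by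
  have e : 1 + W * Matrix.diagonal (fun i => (d i : ℂ)) * Wᴴ =
      W * Matrix.diagonal (fun i => (((1 + d i : ℝ)) : ℂ)) * Wᴴ := by
    have : Matrix.diagonal (fun i => (((1 + d i : ℝ)) : ℂ)) =
        1 + Matrix.diagonal (fun i => (d i : ℂ)) := by
      ext i j
      by_cases h : i = j
      · subst h
        simp
      · simp [h]
    rw [this, Matrix.mul_add, Matrix.add_mul, Matrix.mul_one, hW1]
  have hdet : W.det * Wᴴ.det = 1 := by rw [← Matrix.det_mul, hW1, Matrix.det_one]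
  rw [e, Matrix.det_mul, Matrix.det_mul, Matrix.det_diagonal]
  calc W.det * (∏ i, (((1 + d i : ℝ)) : ℂ)) * Wᴴ.det
      = (W.det * Wᴴ.det) * ∏ i, (((1 + d i : ℝ)) : ℂ) := by ring
    _ = _ := by rw [hdet, one_mul, Complex.ofReal_prod]

/-- The determinant inequality for positive definite matrices. -/
theorem det_posDef {n : ℕ} {P X : Matrix (Fin n) (Fin n) ℂ} (hP : P.PosDef) (hX : X.PosDef) {r : ℝ}
    (hr0 : 0 < r) (hr : r ≤ 1) :
    (P + P ^ r * X ^ (2 * r)).det ≤ (P + (X * P * X) ^ r).det := by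
  have hPs : IsStrictlyPositive P := hP.isStrictlyPositive
  have hXs : IsStrictlyPositive X := hX.isStrictlyPositive
  have hCs : IsStrictlyPositive (X * P * X) := conj_sp hPs hXs
  have m1 : (P ^ (-(1 / 2) : ℝ) * (X * P * X) ^ r * P ^ (-(1 / 2) : ℝ)).PosDef :=
    (conj_sp (rsp hCs r) (rsp hPs _)).posDef
  have m2 : (P ^ (-((1 - r) / 2)) * X ^ (2 * r) * P ^ (-((1 - r) / 2))).PosDef :=
    (conj_sp (rsp hXs _) (rsp hPs _)).posDef
  obtain ⟨U, x, hU1, hU2, hx, hxa, hUx⟩ := exists_diag_anti m1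
  obtain ⟨V, y, hV1, hV2, hy, hya, hVy⟩ := exists_diag_anti m2
  have hprod := prod_le hx hy hya
    (fun k hk => logmaj hP hX hr0 hr hU1 hV2 hx hxa hUx hVy hk)
  -- the two determinants
  have hhalf : P ^ (1 / 2 : ℝ) * P ^ (1 / 2 : ℝ) = P := by
    rw [radd hPs]
    norm_num
    exact CFC.rpow_one P hPs.nonneg
  have d1 : (P + (X * P * X) ^ r).det = P.det * ((∏ i, (1 + x i) : ℝ) : ℂ) := by
    have e : P + (X * P * X) ^ r = P ^ (1 / 2 : ℝ) *
        (1 + P ^ (-(1 / 2) : ℝ) * (X * P * X) ^ r * P ^ (-(1 / 2) : ℝ)) * P ^ (1 / 2 : ℝ) := by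
      rw [Matrix.mul_add, Matrix.add_mul, Matrix.mul_one, hhalf]
      congr 1
      symm
      calc P ^ (1 / 2 : ℝ) * (P ^ (-(1 / 2) : ℝ) * (X * P * X) ^ r * P ^ (-(1 / 2) : ℝ)) *
            P ^ (1 / 2 : ℝ)
          = (P ^ (1 / 2 : ℝ) * P ^ (-(1 / 2) : ℝ)) * (X * P * X) ^ r *
            (P ^ (-(1 / 2) : ℝ) * P ^ (1 / 2 : ℝ)) := by simp only [Matrix.mul_assoc]
        _ = _ := by
            rw [radd hPs, radd hPs, add_neg_cancel, neg_add_cancel, CFC.rpow_zero P hPs.nonneg,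
              Matrix.one_mul, Matrix.mul_one]
    rw [e, Matrix.det_mul, Matrix.det_mul, hUx, det_one_add hU1]
    calc (P ^ (1 / 2 : ℝ)).det * ((∏ i, (1 + x i) : ℝ) : ℂ) * (P ^ (1 / 2 : ℝ)).det
        = ((P ^ (1 / 2 : ℝ)).det * (P ^ (1 / 2 : ℝ)).det) * ((∏ i, (1 + x i) : ℝ) : ℂ) := by ring
      _ = _ := by rw [← Matrix.det_mul, hhalf]
  have d2 : (P + P ^ r * X ^ (2 * r)).det = P.det * ((∏ i, (1 + y i) : ℝ) : ℂ) := by
    have e : P + P ^ r * X ^ (2 * r) = P ^ r * (P ^ ((1 - r) / 2) *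
        (1 + P ^ (-((1 - r) / 2)) * X ^ (2 * r) * P ^ (-((1 - r) / 2))) * P ^ ((1 - r) / 2)) := by
      rw [Matrix.mul_add, Matrix.add_mul, Matrix.mul_one, Matrix.mul_add]
      congr 1
      · rw [radd hPs, radd hPs]
        have : r + ((1 - r) / 2 + (1 - r) / 2) = 1 := by ring
        rw [this, CFC.rpow_one P hPs.nonneg]
      · congr 1
        symm
        calc P ^ ((1 - r) / 2) * (P ^ (-((1 - r) / 2)) * X ^ (2 * r) * P ^ (-((1 - r) / 2))) *
              P ^ ((1 - r) / 2)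
            = (P ^ ((1 - r) / 2) * P ^ (-((1 - r) / 2))) * X ^ (2 * r) *
              (P ^ (-((1 - r) / 2)) * P ^ ((1 - r) / 2)) := by simp only [Matrix.mul_assoc]
          _ = _ := by
              rw [radd hPs, radd hPs, add_neg_cancel, neg_add_cancel, CFC.rpow_zero P hPs.nonneg,
                Matrix.one_mul, Matrix.mul_one]
    rw [e, Matrix.det_mul, Matrix.det_mul, Matrix.det_mul, hVy, det_one_add hV1]
    calc (P ^ r).det * ((P ^ ((1 - r) / 2)).det * ((∏ i, (1 + y i) : ℝ) : ℂ) *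
          (P ^ ((1 - r) / 2)).det)
        = ((P ^ r).det * ((P ^ ((1 - r) / 2)).det * (P ^ ((1 - r) / 2)).det)) *
          ((∏ i, (1 + y i) : ℝ) : ℂ) := by ring
      _ = _ := by
          rw [← Matrix.det_mul, ← Matrix.det_mul, radd hPs, radd hPs]
          have : r + ((1 - r) / 2 + (1 - r) / 2) = 1 := by ring
          rw [this, CFC.rpow_one P hPs.nonneg]
  rw [d1, d2]
  have hdetP : (0 : ℂ) ≤ P.det := hP.det_pos.le
  refine mul_le_mul_of_nonneg_left ?_ hdetP
  exact_mod_cast hprod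

end Pool.Agent.X872.DetIneq
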